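import Pool.Agent.N128.TM.Pub

set_option autoImplicit false

/-!
# Torsion line bundles of every prime power order on primitive symplectic varieties

`latt`, `IsForm`, `IsPrimitiveSymplectic`, `LineBundle`, `LineBundle.pow`, `LineBundle.IsSection` and
`LineBundle.IsTrivial` are defined in `Pool.Agent.W594.SYZ.Defs2`, `IsChernForm` in
`Pool.Agent.W594.SYZ.TQDefs`; `TwoTransitive` in `Pool.Agent.N128.TM.PS`, `CycleCondition` in
`Pool.Agent.N128.TM.Bun`, `IsPermutationQuotient` and `HasTorsionBundle` in
`Pool.Agent.N128.TM.Pub`.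
-/

namespace Pool.Agent.Results.MP_e4ecdb_ag.TorsionOrders

open Pool.Agent.W594.SYZ2 Pool.Agent.N128.TM

/-- 1. Let `A = ℂ² / Λ` be any two-dimensional complex torus (`Λ` the lattice with the basis `b`),
`G` a doubly transitive group of permutations of a finite set `S`, and `m ≥ 1` an integer such that
every `g ∈ G` has a cycle whose length times `m` divides `#S`.  Then `X = (A^S / A) / G` is a
primitive symplectic variety of dimension `2 (#S - 1)`, and there is a line bundle `L` on `X` of exact
order `m` in the Picard group with Chern form `0` such that `h^0(X, L^k) ≤ 1` for all `k`; so, for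
`m ≥ 2`, `L` is nontrivial, nef, movable and `q_X(L) = 0`, and no power of `L` defines a rational
Lagrangian fibration.

2. For every prime power `m = p^a` there is such a group on a set of `p^(a+1)` elements (the affine
group of the finite field with `p^(a+1)` elements). -/
theorem result :
    (∀ (S : Type) [Fintype S] [Nontrivial S] (G : Subgroup (Equiv.Perm S)) (m : ℕ) [NeZero m]
      (b : Module.Basis (Fin 4) ℝ (Fin 2 → ℂ)), TwoTransitive G → CycleCondition G m →
      ∃ (V : Type) (_ : NormedAddCommGroup V) (_ : NormedSpace ℂ V) (Γ : Subgroup (V ≃ᵃ[ℂ] V)),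
        Module.finrank ℂ V = 2 * (Fintype.card S - 1) ∧ IsPrimitiveSymplectic Γ ∧
        IsPermutationQuotient b G Γ ∧ HasTorsionBundle Γ m) ∧
    (∀ p a : ℕ, p.Prime → ∃ (S : Type) (_ : Fintype S) (G : Subgroup (Equiv.Perm S)),
      Fintype.card S = p ^ (a + 1) ∧ TwoTransitive G ∧ CycleCondition G (p ^ a)) := by
  refine ⟨?_, fun p a hp => ?_⟩
  · intro S _ _ G m _ b hG hc
    refine ⟨Zr S, inferInstance, inferInstance, Gam b G, finrank_Zr, primitive hG,
      ⟨(Zr S).subtype, Subtype.val_injective, ?_, mem_latt_iff b G, linear_iff b G⟩, bun b hc,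
      trivial_iff hc, chern hc, fun k s hs => ⟨s 0, fun v => section_const hc k s hs v 0⟩⟩
    intro f
    constructor
    · rintro ⟨v, rfl⟩
      exact Zr_sum v
    · intro hf
      exact ⟨⟨f, (mem_Zr f).2 hf⟩, rfl⟩
  · have : Fact p.Prime := ⟨hp⟩
    have : Fintype (GaloisField p (a + 1)) := Fintype.ofFinite _
    have hcard : Fintype.card (GaloisField p (a + 1)) = p ^ (a + 1) := by
      rw [← Nat.card_eq_fintype_card]
      exact GaloisField.card p (a + 1) (Nat.succ_ne_zero a)
    exact ⟨GaloisField p (a + 1), this, affineGroup _, hcard, affine_two _,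
      affine_cycle _ p a hp hcard⟩

end Pool.Agent.Results.MP_e4ecdb_ag.TorsionOrders
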